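import Mathlib
set_option autoImplicit false

/-! One-dimensional oscillatory integrals with rough convex phases. -/

namespace Pool.Agent.TH277.CP

open MeasureTheory Set Complex

/-- Second mean value inequality for an antitone non-negative weight. -/
lemma smv (g : ℝ → ℂ) (w : ℝ → ℝ) (u v M : ℝ) (huv : u ≤ v)
    (hg : IntervalIntegrable g volume u v) (hw : Antitone w) (hw0 : ∀ r, 0 ≤ w r)
    (hM : ∀ c ∈ Icc u v, ‖∫ r in u..c, g r‖ ≤ M) :
    ‖∫ r in u..v, g r * w r‖ ≤ M * w u := by
  have hW : 0 ≤ w u := hw0 u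
  have hM0 : 0 ≤ M := (norm_nonneg _).trans (hM u ⟨le_refl _, huv⟩)
  have hgI : IntegrableOn g (Ioc u v) := (intervalIntegrable_iff_integrableOn_Ioc_of_le huv).1 hg
  -- layer cake
  have h1 : ∀ r ∈ Ioc u v, g r * (w r : ℂ) =
      ∫ s in Ioc 0 (w u), g r * (if s < w r then (1 : ℂ) else 0) := by
    intro r hr
    rw [integral_const_mul]
    congr 1
    have h2 : ∫ s in Ioc 0 (w u), (if s < w r then (1 : ℂ) else 0) =
        ∫ s in Ioc 0 (w u), (Iio (w r)).indicator (fun _ => (1 : ℂ)) s := by
      apply integral_congr_ae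
      refine ae_of_all _ fun s => ?_
      simp only [indicator, mem_Iio]
    rw [h2, setIntegral_indicator measurableSet_Iio, setIntegral_const]
    have h3 : Ioc 0 (w u) ∩ Iio (w r) = Ioo 0 (w r) := by
      ext s
      simp only [mem_inter_iff, mem_Ioc, mem_Iio, mem_Ioo]
      constructor
      · rintro ⟨⟨a, _⟩, c⟩
        exact ⟨a, c⟩
      · rintro ⟨a, b⟩
        exact ⟨⟨a, b.le.trans (hw hr.1.le)⟩, b⟩
    rw [h3, measureReal_def, Real.volume_Ioo, sub_zero, ENNReal.toReal_ofReal (hw0 r)]
    simp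
  rw [intervalIntegral.integral_of_le huv, setIntegral_congr_fun measurableSet_Ioc h1]
  have hmeas : MeasurableSet {p : ℝ × ℝ | p.2 < w p.1} :=
    measurableSet_lt measurable_snd (hw.measurable.comp measurable_fst)
  have hint : Integrable (Function.uncurry fun r s => g r * (if s < w r then (1 : ℂ) else 0))
      ((volume.restrict (Ioc u v)).prod (volume.restrict (Ioc 0 (w u)))) := by
    have h4 : Integrable (fun p : ℝ × ℝ => g p.1)
        ((volume.restrict (Ioc u v)).prod (volume.restrict (Ioc 0 (w u)))) := hgI.comp_fst _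
    refine h4.mono ?_ ?_
    · refine h4.1.mul ?_
      exact (Measurable.ite hmeas measurable_const measurable_const).aestronglyMeasurable
    · refine ae_of_all _ fun p => ?_
      simp only [Function.uncurry]
      split_ifs <;> simp
  rw [integral_integral_swap hint]
  have h5 : ∀ s, ‖∫ r in Ioc u v, g r * (if s < w r then (1 : ℂ) else 0)‖ ≤ M := by
    intro s
    set c := sSup (insert u {r | r ∈ Ioc u v ∧ s < w r}) with hc
    have hbdd : BddAbove (insert u {r | r ∈ Ioc u v ∧ s < w r}) := by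
      refine ⟨v, ?_⟩
      rintro r (rfl | hr)
      · exact huv
      · exact hr.1.2
    have hcu : u ≤ c := le_csSup hbdd (mem_insert _ _)
    have hcv : c ≤ v := by
      apply csSup_le (insert_nonempty _ _)
      rintro r (rfl | hr)
      · exact huv
      · exact hr.1.2
    have h6 : ∫ r in Ioc u v, g r * (if s < w r then (1 : ℂ) else 0) = ∫ r in Ioc u c, g r := by
      have h7 : ∫ r in Ioc u c, g r = ∫ r in Ioc u v, (Ioc u c).indicator g r := by
        rw [setIntegral_indicator measurableSet_Ioc, inter_eq_right.2 (Ioc_subset_Ioc_right hcv)]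
      rw [h7]
      apply integral_congr_ae
      have h8 : ∀ᵐ r ∂(volume.restrict (Ioc u v)), r ≠ c := by
        apply ae_restrict_of_ae
        exact (measure_eq_zero_iff_ae_notMem.1 (Real.volume_singleton (a := c))).mono
          fun r hr h => hr (by simpa using h)
      filter_upwards [h8, ae_restrict_mem measurableSet_Ioc] with r hr hr2
      by_cases h9 : s < w r
      · have h10 : r ≤ c := le_csSup hbdd (mem_insert_of_mem _ ⟨hr2, h9⟩)
        rw [if_pos h9, mul_one, indicator_of_mem (show r ∈ Ioc u c from ⟨hr2.1, h10⟩)]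
      · rw [if_neg h9, mul_zero, indicator_of_notMem]
        intro h10
        have h11 : r < c := lt_of_le_of_ne h10.2 hr
        obtain ⟨r', hr', hlt⟩ := exists_lt_of_lt_csSup (insert_nonempty _ _) h11
        rcases hr' with rfl | hr'
        · exact absurd hlt (not_lt.2 hr2.1.le)
        · exact h9 (lt_of_lt_of_le hr'.2 (hw hlt.le))
    rw [h6, ← intervalIntegral.integral_of_le hcu]
    exact hM c ⟨hcu, hcv⟩
  calc ‖∫ s in Ioc 0 (w u), ∫ r in Ioc u v, g r * (if s < w r then (1 : ℂ) else 0)‖
      ≤ M * (volume (Ioc 0 (w u))).toReal := by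
        apply norm_setIntegral_le_of_norm_le_const measure_Ioc_lt_top
        intro s _
        exact h5 s
    _ = M * w u := by rw [Real.volume_Ioc, sub_zero, ENNReal.toReal_ofReal hW]

/-- The van der Corput inequality for a phase with monotone right derivative. -/
lemma vdc (h D : ℝ → ℝ) (u c lam : ℝ) (huc : u ≤ c) (hlam : 0 < lam)
    (hcont : ContinuousOn h (Icc u c))
    (hder : ∀ x ∈ Ioo u c, HasDerivWithinAt h (D x) (Ioi x) x)
    (hD : MonotoneOn D (Icc u c)) (hDl : ∀ x ∈ Icc u c, lam ≤ D x) :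
    ‖∫ r in u..c, cexp (I * h r)‖ ≤ 2 / lam := by
  set pr : ℝ → ℝ := fun r => max u (min r c) with hpr
  have hprm : Monotone pr := fun a b hab => max_le_max le_rfl (min_le_min hab le_rfl)
  have hprI : ∀ r, pr r ∈ Icc u c := fun r => ⟨le_max_left _ _, max_le huc (min_le_right _ _)⟩
  have hpre : ∀ r ∈ Icc u c, pr r = r := by
    intro r hr
    simp only [hpr]
    rw [min_eq_left hr.2, max_eq_right hr.1]
  set E : ℝ → ℝ := fun r => D (pr r) with hE
  have hEm : Monotone E := fun a b hab => hD (hprI a) (hprI b) (hprm hab)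
  have hEl : ∀ r, lam ≤ E r := fun r => hDl _ (hprI r)
  set w : ℝ → ℝ := fun r => (E r)⁻¹ with hw
  have hwa : Antitone w := fun a b hab =>
    inv_anti₀ (hlam.trans_le (hEl a)) (hEm hab)
  have hw0 : ∀ r, 0 ≤ w r := fun r => inv_nonneg.2 (hlam.le.trans (hEl r))
  set F : ℝ → ℂ := fun r => cexp (I * h r) with hF
  have hFc : ContinuousOn F (Icc u c) := by
    have : ContinuousOn (fun r => I * (h r : ℂ)) (Icc u c) :=
      continuousOn_const.mul (continuous_ofReal.comp_continuousOn hcont)
    exact this.cexp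
  set g : ℝ → ℂ := fun r => F r * (I * (E r : ℂ)) with hg
  have hEint : ∀ d ∈ Icc u c, IntervalIntegrable (fun r => (E r : ℂ)) volume u d := by
    intro d hd
    have h0 : IntervalIntegrable E volume u d := hEm.intervalIntegrable
    exact ⟨h0.1.ofReal, h0.2.ofReal⟩
  have hgint : ∀ d ∈ Icc u c, IntervalIntegrable g volume u d := by
    intro d hd
    apply IntervalIntegrable.continuousOn_mul
    · exact (hEint d hd).const_mul I
    · rw [uIcc_of_le hd.1]
      exact hFc.mono (Icc_subset_Icc_right hd.2)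
  have hprim : ∀ d ∈ Icc u c, ∫ r in u..d, g r = F d - F u := by
    intro d hd
    apply intervalIntegral.integral_eq_sub_of_hasDeriv_right
    · rw [uIcc_of_le hd.1]
      exact hFc.mono (Icc_subset_Icc_right hd.2)
    · intro x hx
      rw [min_eq_left hd.1, max_eq_right hd.1] at hx
      have hx' : x ∈ Ioo u c := ⟨hx.1, hx.2.trans_le hd.2⟩
      have h1 : HasDerivWithinAt (fun r => I * (h r : ℂ)) (I * (D x : ℂ)) (Ioi x) x :=
        ((hder x hx').ofReal_comp).const_mul I
      have h2 := h1.cexp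
      have h3 : E x = D x := by
        simp only [hE]
        rw [hpre x ⟨hx'.1.le, hx'.2.le⟩]
      simp only [hg, hF, h3]
      exact h2
    · exact hgint d hd
  have hnF : ∀ r, ‖F r‖ = 1 := by
    intro r
    simp only [hF]
    rw [mul_comm]
    exact norm_exp_ofReal_mul_I (h r)
  have hb : ∀ d ∈ Icc u c, ‖∫ r in u..d, g r‖ ≤ 2 := by
    intro d hd
    rw [hprim d hd]
    calc ‖F d - F u‖ ≤ ‖F d‖ + ‖F u‖ := norm_sub_le _ _
      _ = 2 := by rw [hnF, hnF]; norm_num
  have hmain := smv g w u c 2 huc (hgint c ⟨huc, le_refl _⟩) hwa hw0 hb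
  have heq : ∫ r in u..c, g r * (w r : ℂ) = I * ∫ r in u..c, F r := by
    rw [← intervalIntegral.integral_const_mul]
    apply intervalIntegral.integral_congr
    intro r _
    have hE0 : (E r : ℂ) ≠ 0 := by
      have := hlam.trans_le (hEl r)
      exact_mod_cast this.ne'
    simp only [hg, hw]
    push_cast
    field_simp
  rw [heq, norm_mul, norm_I, one_mul] at hmain
  refine hmain.trans ?_
  have hwu : w u ≤ lam⁻¹ := inv_anti₀ hlam (hEl u)
  calc 2 * w u ≤ 2 * lam⁻¹ := by linarith
    _ = 2 / lam := by rw [div_eq_mul_inv]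

/-- The phases which occur on a ray: `k r = h r - τ r²` is convex on `[0,R)` and `h` is almost
minimal at `0`. -/
structure Ray (h : ℝ → ℝ) (τ δ R : ℝ) : Prop where
  conv : ConvexOn ℝ (Ico 0 R) (fun r => h r - τ * r ^ 2)
  low : ∀ r ∈ Ico 0 R, h 0 - δ ≤ h r

lemma Ray.cont {h : ℝ → ℝ} {τ δ R : ℝ} (H : Ray h τ δ R) : ContinuousOn h (Ioo 0 R) := by
  have h1 : ContinuousOn (fun r => h r - τ * r ^ 2) (Ioo 0 R) :=
    (H.conv.subset Ioo_subset_Ico_self (convex_Ioo 0 R)).continuousOn isOpen_Ioo
  have h2 : ContinuousOn (fun r => (h r - τ * r ^ 2) + τ * r ^ 2) (Ioo 0 R) :=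
    h1.add (by fun_prop)
  refine h2.congr fun r _ => ?_
  ring

lemma Ray.osc {h : ℝ → ℝ} {τ δ R : ℝ} (H : Ray h τ δ R) (hτ : 0 < τ) (u c : ℝ) (hu : 0 < u)
    (huc : u ≤ c) (hcR : c < R) (hδ : δ ≤ τ * u ^ 2 / 2) :
    ‖∫ r in u..c, cexp (I * h r)‖ ≤ 4 / (τ * u) := by
  set k : ℝ → ℝ := fun r => h r - τ * r ^ 2 with hk
  have hkc : ConvexOn ℝ (Ico 0 R) k := H.conv
  have hint : interior (Ico (0 : ℝ) R) = Ioo 0 R := interior_Ico
  set D : ℝ → ℝ := fun r => derivWithin k (Ioi r) r + 2 * τ * r with hD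
  have hmem : ∀ x ∈ Icc u c, x ∈ interior (Ico (0 : ℝ) R) := by
    intro x hx
    rw [hint]
    exact ⟨hu.trans_le hx.1, hx.2.trans_lt hcR⟩
  have hlow : ∀ x ∈ Icc u c, τ * u / 2 ≤ D x := by
    intro x hx
    have hx0 : 0 < x := hu.trans_le hx.1
    have hxR : x < R := hx.2.trans_lt hcR
    have h0 : (0 : ℝ) ∈ Ico (0 : ℝ) R := ⟨le_refl _, hx0.trans hxR⟩
    have hxI : x ∈ Ico (0 : ℝ) R := ⟨hx0.le, hxR⟩
    have h1 := hkc.slope_le_leftDeriv_of_mem_interior h0 (hmem x hx) hx0
    have h2 := hkc.leftDeriv_le_rightDeriv_of_mem_interior (hmem x hx)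
    have h3 : slope k 0 x ≤ derivWithin k (Ioi x) x := h1.trans h2
    have h4 : -δ / x - τ * x ≤ slope k 0 x := by
      rw [slope_def_field]
      simp only [hk]
      have h5 := H.low x hxI
      rw [le_div_iff₀ (by linarith)]
      have h6 : (-δ / x - τ * x) * (x - 0) = -δ - τ * x ^ 2 := by
        field_simp
        ring
      rw [h6]
      nlinarith
    have h7 : δ / x ≤ τ * x / 2 := by
      rw [div_le_iff₀ hx0]
      have : u ^ 2 ≤ x ^ 2 := by nlinarith [hx.1]
      nlinarith
    have h8 : -δ / x = -(δ / x) := by ring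
    have h9 : u ≤ x := hx.1
    simp only [hD]
    nlinarith
  have hres := vdc h D u c (τ * u / 2) huc (by positivity)
    (H.cont.mono fun x hx => ⟨hu.trans_le hx.1, hx.2.trans_lt hcR⟩) ?_ ?_ hlow
  · refine hres.trans (le_of_eq ?_)
    field_simp
    norm_num
  · intro x hx
    have h1 := hkc.hasDerivWithinAt_rightDeriv_of_mem_interior (hmem x ⟨hx.1.le, hx.2.le⟩)
    have h2 : HasDerivWithinAt (fun r : ℝ => τ * r ^ 2) (2 * τ * x) (Ioi x) x := by
      have h4 : HasDerivAt (fun r : ℝ => τ * r ^ 2) (τ * ((2 : ℕ) * x ^ (2 - 1))) x :=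
        (hasDerivAt_pow 2 x).const_mul τ
      refine (h4.congr_deriv ?_).hasDerivWithinAt
      push_cast
      rw [pow_one]
      ring
    have h3 := h1.add h2
    refine h3.congr_of_eventuallyEq ?_ ?_
    · refine Filter.Eventually.of_forall fun r => ?_
      simp only [hk, Pi.add_apply]
      ring
    · simp only [hk, Pi.add_apply]
      ring
  · intro a ha b hb hab
    have h1 := hkc.monotoneOn_rightDeriv (hmem a ha) (hmem b hb) hab
    simp only [hD]
    simp only at h1
    nlinarith

/-- The radial integral `∫_0^R r exp(i h(r)) dr`. -/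
lemma Ray.rad {h : ℝ → ℝ} {τ δ R : ℝ} (H : Ray h τ δ R) (hτ : 1 ≤ τ) (hR : R ≤ 1)
    (hδ : δ ≤ 1 / (2 * τ)) :
    ‖∫ r in Ioo 0 R, (r : ℂ) * cexp (I * h r)‖ ≤ 5 * (1 + Real.log τ) / τ := by
  have hτ0 : 0 < τ := by linarith
  have hlog : 0 ≤ Real.log τ := Real.log_nonneg hτ
  rcases le_or_gt R 0 with hR0 | hR0
  · rw [Ioo_eq_empty (not_lt.2 hR0)]
    simp
    positivity
  set F : ℝ → ℂ := fun r => cexp (I * h r) with hF
  have hFc : ContinuousOn F (Ioo 0 R) := by
    have : ContinuousOn (fun r => I * (h r : ℂ)) (Ioo 0 R) :=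
      continuousOn_const.mul (continuous_ofReal.comp_continuousOn H.cont)
    exact this.cexp
  have hnF : ∀ r, ‖F r‖ = 1 := by
    intro r
    simp only [hF]
    rw [mul_comm]
    exact norm_exp_ofReal_mul_I (h r)
  have hFi : IntegrableOn F (Ioo 0 R) := by
    refine IntegrableOn.of_bound measure_Ioo_lt_top (hFc.aestronglyMeasurable measurableSet_Ioo) 1 ?_
    exact ae_of_all _ fun r => (hnF r).le
  have hrF : IntegrableOn (fun r : ℝ => (r : ℂ) * F r) (Ioo 0 R) := by
    refine IntegrableOn.of_bound measure_Ioo_lt_top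
      ((continuous_ofReal.continuousOn.mul hFc).aestronglyMeasurable measurableSet_Ioo) 1 ?_
    filter_upwards [ae_restrict_mem measurableSet_Ioo] with r hr
    rw [norm_mul, hnF, mul_one, norm_real, Real.norm_of_nonneg hr.1.le]
    exact hr.2.le.trans hR
  -- small radii
  have hsmall : ∀ a, 0 ≤ a → a ≤ 1 / τ → a ≤ R →
      ‖∫ r in Ioo 0 a, (r : ℂ) * F r‖ ≤ 1 / τ := by
    intro a ha ha1 haR
    calc ‖∫ r in Ioo 0 a, (r : ℂ) * F r‖ ≤ 1 * (volume (Ioo 0 a)).toReal := by
          apply norm_setIntegral_le_of_norm_le_const measure_Ioo_lt_top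
          intro r hr
          rw [norm_mul, hnF, mul_one, norm_real, Real.norm_of_nonneg hr.1.le]
          exact hr.2.le.trans (haR.trans hR)
      _ = a := by rw [Real.volume_Ioo, sub_zero, ENNReal.toReal_ofReal ha, one_mul]
      _ ≤ 1 / τ := ha1
  rcases le_or_gt R (1 / τ) with hRτ | hRτ
  · refine (hsmall R hR0.le hRτ le_rfl).trans ?_
    rw [div_le_div_iff_of_pos_right hτ0]
    linarith
  set x : ℝ := 1 / τ with hx
  have hx0 : 0 < x := by positivity
  -- large radii, up to `c < R`
  have hbig : ∀ c, x ≤ c → c < R → ‖∫ r in x..c, (r : ℂ) * F r‖ ≤ 4 * (1 + Real.log τ) / τ := by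
    intro c hxc hcR
    have hc0 : 0 < c := hx0.trans_le hxc
    have hc1 : c ≤ 1 := hcR.le.trans hR
    have hosc : ∀ u ∈ Icc x c, ‖∫ r in u..c, F r‖ ≤ 4 / (τ * u) := by
      intro u hu
      refine H.osc hτ0 u c (hx0.trans_le hu.1) hu.2 hcR (hδ.trans ?_)
      have h1 : x ^ 2 ≤ u ^ 2 := by nlinarith [hu.1]
      have h2 : 1 / (2 * τ) = τ * x ^ 2 / 2 := by
        rw [hx]
        field_simp
      rw [h2]
      nlinarith
    have hFci : ContinuousOn F (Icc x c) :=
      hFc.mono fun r hr => ⟨hx0.trans_le hr.1, hr.2.trans_lt hcR⟩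
    have hFint : ∀ u ∈ Icc x c, IntervalIntegrable F volume u c := by
      intro u hu
      apply ContinuousOn.intervalIntegrable
      rw [uIcc_of_le hu.2]
      exact hFci.mono (Icc_subset_Icc_left hu.1)
    -- integration by parts
    set G : ℝ → ℂ := fun u => ∫ r in u..c, F r with hG
    have hGc : ContinuousOn G (Icc x c) := by
      have h1 : ContinuousOn (fun u => ∫ r in c..u, F r) (uIcc c x) := by
        apply intervalIntegral.continuousOn_primitive_interval
        rw [uIcc_comm, uIcc_of_le hxc]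
        exact hFci.integrableOn_Icc
      rw [uIcc_comm, uIcc_of_le hxc] at h1
      refine h1.neg.congr fun u _ => ?_
      simp only [hG]
      exact intervalIntegral.integral_symm _ _
    have hGd : ∀ u ∈ Ioo x c, HasDerivAt G (-F u) u := by
      intro u hu
      apply intervalIntegral.integral_hasDerivAt_left (hFint u ⟨hu.1.le, hu.2.le⟩)
      · exact hFc.stronglyMeasurableAtFilter isOpen_Ioo u ⟨hx0.trans hu.1, hu.2.trans hcR⟩
      · exact hFc.continuousAt (isOpen_Ioo.mem_nhds ⟨hx0.trans hu.1, hu.2.trans hcR⟩)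
    have hibp : ∫ u in x..c, ((u : ℂ) * (-F u) + 1 * G u) = (c : ℂ) * G c - (x : ℂ) * G x := by
      apply intervalIntegral.integral_eq_sub_of_hasDeriv_right
      · rw [uIcc_of_le hxc]
        exact continuous_ofReal.continuousOn.mul hGc
      · intro u hu
        rw [min_eq_left hxc, max_eq_right hxc] at hu
        have h1 : HasDerivAt (fun u : ℝ => (u : ℂ)) 1 u := ofRealCLM.hasDerivAt
        have h2 : HasDerivWithinAt (fun u : ℝ => (u : ℂ) * G u) (1 * G u + (u : ℂ) * (-F u))
            (Ioi u) u := (h1.mul (hGd u hu)).hasDerivWithinAt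
        exact h2.congr_deriv (add_comm _ _)
      · apply ContinuousOn.intervalIntegrable
        rw [uIcc_of_le hxc]
        exact (continuous_ofReal.continuousOn.mul hFci.neg).add (continuousOn_const.mul hGc)
    have hGcc : G c = 0 := by simp [hG]
    have hsplit : ∫ u in x..c, (u : ℂ) * F u = (x : ℂ) * G x + ∫ u in x..c, G u := by
      have h1 : ∫ u in x..c, ((u : ℂ) * (-F u) + 1 * G u) =
          -(∫ u in x..c, (u : ℂ) * F u) + ∫ u in x..c, G u := by
        rw [intervalIntegral.integral_add, ← intervalIntegral.integral_neg]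
        · congr 1
          · apply intervalIntegral.integral_congr
            intro u _
            simp
          · simp
        · apply ContinuousOn.intervalIntegrable
          rw [uIcc_of_le hxc]
          exact continuous_ofReal.continuousOn.mul hFci.neg
        · apply ContinuousOn.intervalIntegrable
          rw [uIcc_of_le hxc]
          exact continuousOn_const.mul hGc
      rw [h1, hGcc] at hibp
      linear_combination -hibp
    rw [hsplit]
    have hA : ‖(x : ℂ) * G x‖ ≤ 4 / τ := by
      rw [norm_mul, norm_real, Real.norm_of_nonneg hx0.le]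
      calc x * ‖G x‖ ≤ x * (4 / (τ * x)) :=
            mul_le_mul_of_nonneg_left (hosc x ⟨le_refl _, hxc⟩) hx0.le
        _ = 4 / τ := by field_simp
    have hB : ‖∫ u in x..c, G u‖ ≤ 4 * Real.log τ / τ := by
      have h1 : ‖∫ u in x..c, G u‖ ≤ ∫ u in x..c, 4 / τ * u⁻¹ := by
        apply intervalIntegral.norm_integral_le_of_norm_le hxc
        · refine ae_of_all _ fun u hu => ?_
          refine (hosc u ⟨hu.1.le, hu.2⟩).trans (le_of_eq ?_)
          have : u ≠ 0 := (hx0.trans hu.1).ne'
          field_simp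
        · apply ContinuousOn.intervalIntegrable
          rw [uIcc_of_le hxc]
          refine continuousOn_const.mul (continuousOn_inv₀.mono ?_)
          intro u hu
          exact (hx0.trans_le hu.1).ne'
      refine h1.trans ?_
      rw [intervalIntegral.integral_const_mul, integral_inv_of_pos hx0 hc0]
      have h2 : Real.log (c / x) ≤ Real.log τ := by
        apply Real.log_le_log (by positivity)
        rw [hx]
        field_simp
        exact hc1
      calc 4 / τ * Real.log (c / x) ≤ 4 / τ * Real.log τ :=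
            mul_le_mul_of_nonneg_left h2 (by positivity)
        _ = 4 * Real.log τ / τ := by ring
    calc ‖(x : ℂ) * G x + ∫ u in x..c, G u‖ ≤ 4 / τ + 4 * Real.log τ / τ :=
          (norm_add_le _ _).trans (add_le_add hA hB)
      _ = 4 * (1 + Real.log τ) / τ := by ring
  -- conclusion
  apply le_of_forall_pos_le_add
  intro ε hε
  obtain ⟨c, hc1, hc2⟩ : ∃ c, max x (R - ε) < c ∧ c < R :=
    exists_between (max_lt hRτ (by linarith))
  have hxc : x < c := (le_max_left _ _).trans_lt hc1
  have hεc : R - ε < c := (le_max_right _ _).trans_lt hc1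
  have hdec : ∫ r in Ioo 0 R, (r : ℂ) * F r =
      (∫ r in Ioo 0 x, (r : ℂ) * F r) + (∫ r in x..c, (r : ℂ) * F r) +
        ∫ r in Ioo c R, (r : ℂ) * F r := by
    rw [← integral_Ioc_eq_integral_Ioo, ← integral_Ioc_eq_integral_Ioo,
      ← integral_Ioc_eq_integral_Ioo, ← intervalIntegral.integral_of_le hR0.le,
      ← intervalIntegral.integral_of_le hx0.le, ← intervalIntegral.integral_of_le hc2.le]
    have hi : IntegrableOn (fun r : ℝ => (r : ℂ) * F r) (Ioc 0 R) :=
      (integrableOn_Ioc_iff_integrableOn_Ioo).2 hrF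
    have hii : ∀ a b, 0 ≤ a → a ≤ b → b ≤ R →
        IntervalIntegrable (fun r : ℝ => (r : ℂ) * F r) volume a b := by
      intro a b ha hab hb
      rw [intervalIntegrable_iff_integrableOn_Ioc_of_le hab]
      exact hi.mono_set (Ioc_subset_Ioc ha hb)
    rw [intervalIntegral.integral_add_adjacent_intervals (hii 0 x le_rfl hx0.le (hxc.le.trans hc2.le))
      (hii x c hx0.le hxc.le hc2.le),
      intervalIntegral.integral_add_adjacent_intervals
      (hii 0 c le_rfl (hx0.le.trans hxc.le) hc2.le) (hii c R (hx0.le.trans hxc.le) hc2.le le_rfl)]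
  rw [hdec]
  have h1 := hsmall x hx0.le le_rfl hRτ.le
  have h2 := hbig c hxc.le hc2
  have h3 : ‖∫ r in Ioo c R, (r : ℂ) * F r‖ ≤ ε := by
    calc ‖∫ r in Ioo c R, (r : ℂ) * F r‖ ≤ 1 * (volume (Ioo c R)).toReal := by
          apply norm_setIntegral_le_of_norm_le_const measure_Ioo_lt_top
          intro r hr
          rw [norm_mul, hnF, mul_one, norm_real, Real.norm_of_nonneg
            ((hx0.trans hxc).trans hr.1).le]
          exact hr.2.le.trans hR
      _ = R - c := by rw [Real.volume_Ioo, ENNReal.toReal_ofReal (by linarith), one_mul]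
      _ ≤ ε := by linarith
  calc _ ≤ 1 / τ + 4 * (1 + Real.log τ) / τ + ε :=
        (norm_add₃_le).trans (add_le_add (add_le_add h1 h2) h3)
    _ ≤ 5 * (1 + Real.log τ) / τ + ε := by
        have : 1 / τ ≤ (1 + Real.log τ) / τ := by
          rw [div_le_div_iff_of_pos_right hτ0]
          linarith
        have h4 : 5 * (1 + Real.log τ) / τ = (1 + Real.log τ) / τ + 4 * (1 + Real.log τ) / τ := by
          ring
        linarith

end Pool.Agent.TH277.CP
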