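import Mathlib
import Pool.Agent.TH277.CP.A
set_option autoImplicit false

/-! Two-dimensional oscillatory integrals with rough convex phases over convex sets. -/

namespace Pool.Agent.TH277.CP

open MeasureTheory Set Complex

/-- The squared Euclidean norm on the plane. -/
def sq (x : ℝ × ℝ) : ℝ := x.1 ^ 2 + x.2 ^ 2

/-- The closed disc of radius `1/2`. -/
def disc : Set (ℝ × ℝ) := {x | sq x ≤ 1 / 4}

lemma disc_abs {x : ℝ × ℝ} (hx : x ∈ disc) : |x.1| ≤ 1 / 2 ∧ |x.2| ≤ 1 / 2 := by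
  have h : x.1 ^ 2 + x.2 ^ 2 ≤ 1 / 4 := hx
  constructor
  · apply abs_le_of_sq_le_sq _ (by norm_num)
    nlinarith [sq_nonneg x.2]
  · apply abs_le_of_sq_le_sq _ (by norm_num)
    nlinarith [sq_nonneg x.1]

lemma disc_dist {x y : ℝ × ℝ} (hx : x ∈ disc) (hy : y ∈ disc) : sq (x - y) ≤ 1 := by
  have h1 : x.1 ^ 2 + x.2 ^ 2 ≤ 1 / 4 := hx
  have h2 : y.1 ^ 2 + y.2 ^ 2 ≤ 1 / 4 := hy
  simp only [sq, Prod.fst_sub, Prod.snd_sub]
  nlinarith [sq_nonneg (x.1 + y.1), sq_nonneg (x.2 + y.2)]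

lemma disc_norm {x y : ℝ × ℝ} (hx : x ∈ disc) (hy : y ∈ disc) : ‖x - y‖ ≤ 1 := by
  have h := disc_dist hx hy
  simp only [sq] at h
  rw [Prod.norm_def]
  apply max_le
  · rw [Real.norm_eq_abs]
    apply abs_le_of_sq_le_sq _ (by norm_num)
    nlinarith [sq_nonneg (x - y).2]
  · rw [Real.norm_eq_abs]
    apply abs_le_of_sq_le_sq _ (by norm_num)
    nlinarith [sq_nonneg (x - y).1]

/-- A convex function on a convex set with interior points, contained in the disc, is bounded
below. -/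
lemma bddBelow_convex {K : Set (ℝ × ℝ)} {k : ℝ × ℝ → ℝ} (hKd : K ⊆ disc) (hk : ConvexOn ℝ K k)
    (hi : (interior K).Nonempty) : ∃ m, ∀ x ∈ K, m ≤ k x := by
  obtain ⟨p, hp⟩ := hi
  have hpK : p ∈ K := interior_subset hp
  have hc : ContinuousAt k p :=
    hk.continuousOn_interior.continuousAt (isOpen_interior.mem_nhds hp)
  have h1 : ∀ᶠ y in nhds p, k y < k p + 1 := hc.eventually_lt continuousAt_const (by simp)
  have h2 : ∀ᶠ y in nhds p, y ∈ interior K := isOpen_interior.mem_nhds hp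
  obtain ⟨ρ, hρ, hball⟩ := Metric.eventually_nhds_iff.1 (h1.and h2)
  set θ : ℝ := ρ / 2 with hθ
  have hθ0 : 0 < θ := by positivity
  refine ⟨k p - 1 / θ, ?_⟩
  intro x hx
  set y : ℝ × ℝ := p + θ • (p - x) with hy
  have hyb : dist y p < ρ := by
    rw [hy, dist_eq_norm, add_sub_cancel_left, norm_smul, Real.norm_of_nonneg hθ0.le]
    have := disc_norm (hKd hpK) (hKd hx)
    calc θ * ‖p - x‖ ≤ θ * 1 := mul_le_mul_of_nonneg_left this hθ0.le
      _ < ρ := by rw [hθ]; linarith
  obtain ⟨h3, h4⟩ := hball hyb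
  have hyK : y ∈ K := interior_subset h4
  have hcomb : (1 / (1 + θ)) • y + (θ / (1 + θ)) • x = p := by
    have h5 : (1 + θ) ≠ 0 := by positivity
    rw [hy]
    ext
    · simp only [Prod.fst_add, Prod.smul_fst, Prod.fst_sub, smul_eq_mul]
      field_simp
      ring
    · simp only [Prod.snd_add, Prod.smul_snd, Prod.snd_sub, smul_eq_mul]
      field_simp
      ring
  have h6 := hk.2 hyK hx (show (0 : ℝ) ≤ 1 / (1 + θ) by positivity)
    (show (0 : ℝ) ≤ θ / (1 + θ) by positivity) (by field_simp)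
  rw [hcomb, smul_eq_mul, smul_eq_mul] at h6
  have h7 : (1 + θ) * k p ≤ k y + θ * k x := by
    have h8 : (1 + θ) * (1 / (1 + θ) * k y + θ / (1 + θ) * k x) = k y + θ * k x := by
      field_simp
    rw [← h8]
    exact mul_le_mul_of_nonneg_left h6 (by positivity)
  have h9 : θ * (k p - 1 / θ) = θ * k p - 1 := by
    field_simp
  have h10 : θ * (k p - 1 / θ) ≤ θ * k x := by
    rw [h9]
    linarith
  exact le_of_mul_le_mul_left h10 hθ0

/-- The unit vector with angle `θ`. -/
noncomputable def dir (θ : ℝ) : ℝ × ℝ := (Real.cos θ, Real.sin θ)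

lemma ray_struct {K : Set (ℝ × ℝ)} {Ψ : ℝ × ℝ → ℝ} {τ δ : ℝ} (hKd : K ⊆ disc)
    (hk : ConvexOn ℝ K (fun x => Ψ x - τ * sq x)) {p : ℝ × ℝ} (hp : p ∈ K)
    (hlow : ∀ x ∈ K, Ψ p - δ ≤ Ψ x) (θ : ℝ) :
    ∃ R : ℝ, R ≤ 1 ∧ Ray (fun r => Ψ (p + r • dir θ)) τ δ R ∧
      (∀ r ∈ Ioo 0 R, p + r • dir θ ∈ K) ∧ (∀ r, R < r → 0 < r → p + r • dir θ ∉ K) := by
  set J : Set ℝ := {r | 0 ≤ r ∧ p + r • dir θ ∈ K} with hJ
  have h0 : (0 : ℝ) ∈ J := ⟨le_refl _, by simpa using hp⟩
  have hsqd : ∀ r : ℝ, sq (r • dir θ) = r ^ 2 := by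
    intro r
    simp only [sq, dir, Prod.smul_mk, smul_eq_mul]
    nlinarith [Real.sin_sq_add_cos_sq θ]
  have hJ1 : ∀ r ∈ J, r ≤ 1 := by
    intro r hr
    have h1 := disc_dist (hKd hr.2) (hKd hp)
    rw [add_sub_cancel_left, hsqd] at h1
    nlinarith [hr.1]
  have hbdd : BddAbove J := ⟨1, hJ1⟩
  have hconvJ : ∀ r s, s ∈ J → 0 ≤ r → r ≤ s → r ∈ J := by
    intro r s hs hr hrs
    refine ⟨hr, ?_⟩
    rcases eq_or_lt_of_le (hr.trans hrs) with h | h
    · have : r = 0 := le_antisymm (hrs.trans h.symm.le) hr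
      rw [this]
      simpa using hp
    · have h1 := hk.1 hp hs.2 (show (0 : ℝ) ≤ 1 - r / s by
        rw [sub_nonneg, div_le_one h]; exact hrs) (show (0 : ℝ) ≤ r / s by positivity) (by ring)
      have h2 : (1 - r / s) • p + (r / s) • (p + s • dir θ) = p + r • dir θ := by
        ext
        · simp only [Prod.fst_add, Prod.smul_fst, smul_eq_mul]
          field_simp
          ring
        · simp only [Prod.snd_add, Prod.smul_snd, smul_eq_mul]
          field_simp
          ring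
      rwa [h2] at h1
  refine ⟨sSup J, csSup_le ⟨0, h0⟩ hJ1, ?_, ?_, ?_⟩
  · have hmem : ∀ r ∈ Ico 0 (sSup J), p + r • dir θ ∈ K := by
      intro r hr
      obtain ⟨s, hs, hrs⟩ := exists_lt_of_lt_csSup ⟨0, h0⟩ hr.2
      exact (hconvJ r s hs hr.1 hrs.le).2
    refine ⟨?_, ?_⟩
    · refine ⟨convex_Ico _ _, ?_⟩
      intro a ha b hb μ ν hμ hν hμν
      have h1 := hk.2 (hmem a ha) (hmem b hb) hμ hν hμν
      have h2 : μ • (p + a • dir θ) + ν • (p + b • dir θ) = p + (μ • a + ν • b) • dir θ := by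
        have h3 : ν = 1 - μ := by linarith
        rw [h3]
        ext
        · simp only [Prod.fst_add, Prod.smul_fst, smul_eq_mul]
          ring
        · simp only [Prod.snd_add, Prod.smul_snd, smul_eq_mul]
          ring
      rw [h2] at h1
      have h3 : ∀ r : ℝ, sq (p + r • dir θ) =
          sq p + 2 * r * (p.1 * Real.cos θ + p.2 * Real.sin θ) + r ^ 2 := by
        intro r
        simp only [sq, dir, Prod.fst_add, Prod.snd_add, Prod.smul_mk, smul_eq_mul]
        nlinarith [Real.sin_sq_add_cos_sq θ]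
      simp only [h3, smul_eq_mul] at h1 ⊢
      have h4 : ν = 1 - μ := by linarith
      subst h4
      nlinarith
    · intro r hr
      simp only [zero_smul, add_zero]
      exact hlow _ (hmem r hr)
  · intro r hr
    obtain ⟨s, hs, hrs⟩ := exists_lt_of_lt_csSup ⟨0, h0⟩ hr.2
    exact (hconvJ r s hs hr.1.le hrs.le).2
  · intro r hr hr0 hrK
    exact absurd (le_csSup hbdd (show r ∈ J from ⟨hr0.le, hrK⟩)) (not_le.2 hr)

/-- **Uniform decay for rough convex phases.** -/
theorem decay2 {K : Set (ℝ × ℝ)} {Ψ : ℝ × ℝ → ℝ} {τ : ℝ} (hτ : 1 ≤ τ) (hKd : K ⊆ disc)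
    (hk : ConvexOn ℝ K (fun x => Ψ x - τ * sq x))
    (hm : Measurable (K.indicator fun x => cexp (I * Ψ x))) :
    ‖∫ x, K.indicator (fun x => cexp (I * Ψ x)) x‖ ≤ 32 * (1 + Real.log τ) / τ := by
  have hτ0 : 0 < τ := by linarith
  have hlog : 0 ≤ Real.log τ := Real.log_nonneg hτ
  have hpos : 0 ≤ 32 * (1 + Real.log τ) / τ := by positivity
  set G : ℝ × ℝ → ℂ := K.indicator fun x => cexp (I * Ψ x) with hG
  rcases (interior K).eq_empty_or_nonempty with hint | hint
  · -- a null set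
    have h1 : volume K = 0 := by
      have h2 : K ⊆ frontier K := by
        intro x hx
        rw [frontier, hint, sdiff_empty]
        exact subset_closure hx
      exact measure_mono_null h2 (hk.1.addHaar_frontier volume)
    have h3 : G =ᵐ[volume] 0 := by
      have h4 : ∀ᵐ x ∂(volume : Measure (ℝ × ℝ)), x ∉ K := measure_eq_zero_iff_ae_notMem.1 h1
      filter_upwards [h4] with x hx
      rw [hG, indicator_of_notMem hx]
      rfl
    rw [integral_congr_ae h3]
    simpa using hpos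
  set δ : ℝ := 1 / (2 * τ) with hδ
  have hδ0 : 0 < δ := by positivity
  obtain ⟨m, hm0⟩ := bddBelow_convex hKd hk hint
  have hKne : K.Nonempty := hint.mono interior_subset
  have hbb : BddBelow (Ψ '' K) := by
    refine ⟨m, ?_⟩
    rintro _ ⟨x, hx, rfl⟩
    have h1 := hm0 x hx
    have h2 : 0 ≤ τ * sq x := mul_nonneg hτ0.le (by unfold sq; positivity)
    linarith
  obtain ⟨_, ⟨p, hpK, rfl⟩, hpl⟩ := exists_lt_of_csInf_lt (hKne.image Ψ)
    (show sInf (Ψ '' K) < sInf (Ψ '' K) + δ by linarith)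
  have hlow : ∀ x ∈ K, Ψ p - δ ≤ Ψ x := by
    intro x hx
    have := csInf_le hbb (mem_image_of_mem Ψ hx)
    linarith
  -- polar coordinates
  have h1 : ∫ x, G x = ∫ q in polarCoord.target, q.1 • G (p + polarCoord.symm q) := by
    rw [integral_comp_polarCoord_symm (fun q => G (p + q)), integral_add_left_eq_self]
  rw [h1]
  have htar : polarCoord.target = Ioi (0 : ℝ) ×ˢ Ioo (-Real.pi) Real.pi := rfl
  have hsym : ∀ q : ℝ × ℝ, polarCoord.symm q = q.1 • dir q.2 := by
    intro q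
    simp [polarCoord, dir]
  have hGb : ∀ x, ‖G x‖ ≤ 1 := by
    intro x
    rw [hG]
    by_cases hx : x ∈ K
    · rw [indicator_of_mem hx, mul_comm]
      exact (norm_exp_ofReal_mul_I _).le
    · rw [indicator_of_notMem hx, norm_zero]
      exact zero_le_one
  have hdirc : Continuous dir := by
    unfold dir
    exact Real.continuous_cos.prodMk Real.continuous_sin
  have hmF : Measurable fun q : ℝ × ℝ => q.1 • G (p + q.1 • dir q.2) := by
    apply Measurable.smul measurable_fst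
    apply hm.comp
    apply Measurable.const_add
    exact measurable_fst.smul (hdirc.measurable.comp measurable_snd)
  have hsupp : ∀ q : ℝ × ℝ, 1 < q.1 → G (p + q.1 • dir q.2) = 0 := by
    intro q hq
    rw [hG, indicator_of_notMem]
    intro hmem
    have h2 := disc_dist (hKd hmem) (hKd hpK)
    rw [add_sub_cancel_left] at h2
    simp only [sq, dir, Prod.smul_mk, smul_eq_mul] at h2
    rw [mul_pow, mul_pow, ← mul_add, Real.cos_sq_add_sin_sq, mul_one] at h2
    nlinarith
  have hIon : IntegrableOn (fun q : ℝ × ℝ => q.1 • G (p + q.1 • dir q.2))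
      (Ioi (0 : ℝ) ×ˢ Ioo (-Real.pi) Real.pi) := by
    have h2 : IntegrableOn (fun q : ℝ × ℝ => q.1 • G (p + q.1 • dir q.2))
        (Ioc (0 : ℝ) 1 ×ˢ Ioo (-Real.pi) Real.pi) := by
      refine IntegrableOn.of_bound ?_ hmF.aestronglyMeasurable 1 ?_
      · rw [Measure.volume_eq_prod, Measure.prod_prod]
        exact ENNReal.mul_lt_top measure_Ioc_lt_top measure_Ioo_lt_top
      · filter_upwards [ae_restrict_mem (measurableSet_Ioc.prod measurableSet_Ioo)] with q hq
        rw [norm_smul, Real.norm_of_nonneg hq.1.1.le]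
        calc q.1 * ‖G (p + q.1 • dir q.2)‖ ≤ 1 * 1 :=
              mul_le_mul hq.1.2 (hGb _) (norm_nonneg _) zero_le_one
          _ = 1 := one_mul 1
    have h3 : IntegrableOn (fun q : ℝ × ℝ => q.1 • G (p + q.1 • dir q.2))
        (Ioi (1 : ℝ) ×ˢ Ioo (-Real.pi) Real.pi) := by
      have h4 : IntegrableOn (fun _ : ℝ × ℝ => (0 : ℂ))
          (Ioi (1 : ℝ) ×ˢ Ioo (-Real.pi) Real.pi) := integrableOn_zero
      refine h4.congr_fun ?_ (measurableSet_Ioi.prod measurableSet_Ioo)
      intro q hq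
      simp only
      rw [hsupp q hq.1, smul_zero]
    have h4 : Ioi (0 : ℝ) ×ˢ Ioo (-Real.pi) Real.pi =
        (Ioc (0 : ℝ) 1 ×ˢ Ioo (-Real.pi) Real.pi) ∪ (Ioi (1 : ℝ) ×ˢ Ioo (-Real.pi) Real.pi) := by
      rw [← union_prod, Ioc_union_Ioi_eq_Ioi zero_le_one]
    rw [h4]
    exact h2.union h3
  have h5 : ∫ q in polarCoord.target, q.1 • G (p + polarCoord.symm q) =
      ∫ θ in Ioo (-Real.pi) Real.pi, ∫ r in Ioi (0 : ℝ), r • G (p + r • dir θ) := by
    rw [htar]
    simp only [hsym]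
    rw [Measure.volume_eq_prod, ← Measure.prod_restrict, integral_prod_symm]
    rw [IntegrableOn, Measure.volume_eq_prod, ← Measure.prod_restrict] at hIon
    exact hIon
  rw [h5]
  have h6 : ∀ θ : ℝ, ‖∫ r in Ioi (0 : ℝ), r • G (p + r • dir θ)‖ ≤
      5 * (1 + Real.log τ) / τ := by
    intro θ
    obtain ⟨R, hR1, hRay, hin, hout⟩ := ray_struct hKd hk hpK hlow θ
    have h7 : ∫ r in Ioi (0 : ℝ), r • G (p + r • dir θ) =
        ∫ r in Ioo 0 R, (r : ℂ) * cexp (I * (Ψ (p + r • dir θ) : ℝ)) := by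
      have h8 : ∫ r in Ioo 0 R, (r : ℂ) * cexp (I * (Ψ (p + r • dir θ) : ℝ)) =
          ∫ r in Ioi (0 : ℝ), (Ioo 0 R).indicator
            (fun r : ℝ => (r : ℂ) * cexp (I * (Ψ (p + r • dir θ) : ℝ))) r := by
        rw [setIntegral_indicator measurableSet_Ioo]
        congr 2
        ext r
        simp only [mem_Ioo, mem_inter_iff, mem_Ioi]
        tauto
      rw [h8]
      apply integral_congr_ae
      have h9 : ∀ᵐ r ∂(volume.restrict (Ioi (0 : ℝ))), r ≠ R := by
        apply ae_restrict_of_ae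
        exact (measure_eq_zero_iff_ae_notMem.1 (Real.volume_singleton (a := R))).mono
          fun r hr h => hr (by simpa using h)
      filter_upwards [h9, ae_restrict_mem measurableSet_Ioi] with r hr hr0
      have hr0' : 0 < r := hr0
      by_cases h10 : r < R
      · rw [indicator_of_mem (show r ∈ Ioo 0 R from ⟨hr0', h10⟩), hG,
          indicator_of_mem (hin r ⟨hr0', h10⟩), real_smul]
      · have h11 : R < r := lt_of_le_of_ne (not_lt.1 h10) (Ne.symm hr)
        rw [indicator_of_notMem (fun h => h10 h.2), hG, indicator_of_notMem (hout r h11 hr0'),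
          smul_zero]
    rw [h7]
    exact hRay.rad hτ hR1 le_rfl
  calc ‖∫ θ in Ioo (-Real.pi) Real.pi, ∫ r in Ioi (0 : ℝ), r • G (p + r • dir θ)‖
      ≤ 5 * (1 + Real.log τ) / τ * (volume (Ioo (-Real.pi) Real.pi)).toReal := by
        apply norm_setIntegral_le_of_norm_le_const measure_Ioo_lt_top
        intro θ _
        exact h6 θ
    _ = 5 * (1 + Real.log τ) / τ * (2 * Real.pi) := by
        rw [Real.volume_Ioo, ENNReal.toReal_ofReal (by linarith [Real.pi_pos])]
        ring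
    _ ≤ 32 * (1 + Real.log τ) / τ := by
        have h12 : Real.pi ≤ 3.15 := Real.pi_lt_d2.le
        have h13 : 0 ≤ (1 + Real.log τ) / τ := by positivity
        have h14 : 5 * (1 + Real.log τ) / τ * (2 * Real.pi) =
            (10 * Real.pi) * ((1 + Real.log τ) / τ) := by ring
        have h15 : 32 * (1 + Real.log τ) / τ = 32 * ((1 + Real.log τ) / τ) := by ring
        rw [h14, h15]
        apply mul_le_mul_of_nonneg_right _ h13
        linarith

end Pool.Agent.TH277.CP
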