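import Mathlib
import Pool.Agent.H153R4.Pl
set_option autoImplicit false

/-! Plancherel's theorem on the plane, with the normalisation without `2π` in the phase. -/

namespace Pool.Agent.TH277.CP

open MeasureTheory Set Complex
open scoped FourierTransform ENNReal

lemma plancherel2 (F : ℝ × ℝ → ℂ) (h1 : Integrable F) (h2 : MemLp F 2) :
    ∫⁻ X : ℝ × ℝ, ‖∫ x : ℝ × ℝ, cexp (-(I * ((x.1 * X.1 + x.2 * X.2 : ℝ) : ℂ))) * F x‖ₑ ^ 2 =
      ENNReal.ofReal ((2 * Real.pi) ^ 2) * ∫⁻ x, ‖F x‖ₑ ^ 2 := by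
  have hmp : MeasurePreserving Complex.measurableEquivRealProd := Complex.volume_preserving_equiv_real_prod
  have hme : MeasurableEmbedding Complex.measurableEquivRealProd :=
    Complex.measurableEquivRealProd.measurableEmbedding
  set f : ℂ → ℂ := F ∘ Complex.measurableEquivRealProd with hf
  have hf1 : Integrable f := (hmp.integrable_comp_emb hme).2 h1
  have hf2 : MemLp f 2 := h2.comp_measurePreserving hmp
  have hpl := Pool.Agent.H153R4.plancherel f hf1 hf2
  have hpi : 0 < 2 * Real.pi := by positivity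
  -- the Fourier transform
  have hft : ∀ z : ℂ, 𝓕 f z = ∫ x : ℝ × ℝ,
      cexp (-(I * ((x.1 * (2 * Real.pi * z.re) + x.2 * (2 * Real.pi * z.im) : ℝ) : ℂ))) * F x := by
    intro z
    rw [Real.fourier_eq]
    rw [← hmp.integral_comp hme]
    apply integral_congr_ae
    refine ae_of_all _ fun v => ?_
    simp only [hf, Function.comp]
    rw [Circle.smul_def, Real.fourierChar_apply, smul_eq_mul]
    congr 2
    have h3 : inner ℝ v z = v.re * z.re + v.im * z.im := by
      rw [Complex.inner]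
      simp [Complex.mul_re]
      ring
    rw [h3]
    simp only [Complex.measurableEquivRealProd_apply]
    push_cast
    ring
  -- change of variables
  set H : ℝ × ℝ → ℝ≥0∞ := fun X =>
    ‖∫ x : ℝ × ℝ, cexp (-(I * ((x.1 * X.1 + x.2 * X.2 : ℝ) : ℂ))) * F x‖ₑ ^ 2 with hH
  have e1 : ∫⁻ z : ℂ, ‖𝓕 f z‖ₑ ^ 2 = ∫⁻ Y : ℝ × ℝ, H ((2 * Real.pi) • Y) := by
    rw [← hmp.lintegral_comp_emb hme]
    apply lintegral_congr
    intro z
    rw [hft z]
    simp only [hH, Complex.measurableEquivRealProd_apply, Prod.smul_fst, Prod.smul_snd,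
      smul_eq_mul]
  have e2 : ∫⁻ z : ℂ, ‖f z‖ₑ ^ 2 = ∫⁻ x : ℝ × ℝ, ‖F x‖ₑ ^ 2 := by
    rw [← hmp.lintegral_comp_emb hme]
    rfl
  have e3 : ∫⁻ Y : ℝ × ℝ, H ((2 * Real.pi) • Y) =
      ENNReal.ofReal |((2 * Real.pi) ^ Module.finrank ℝ (ℝ × ℝ))⁻¹| * ∫⁻ X, H X := by
    have := Measure.map_addHaar_smul (volume : Measure (ℝ × ℝ)) hpi.ne'
    have h4 : MeasurableEmbedding (fun Y : ℝ × ℝ => (2 * Real.pi) • Y) :=
      (Homeomorph.smulOfNeZero (2 * Real.pi) hpi.ne').measurableEmbedding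
    rw [← h4.lintegral_map, this, lintegral_smul_measure, smul_eq_mul]
  have hfr : Module.finrank ℝ (ℝ × ℝ) = 2 := by simp
  rw [e1, e2, e3, hfr] at hpl
  rw [← hpl, ← mul_assoc, ← ENNReal.ofReal_mul (by positivity), abs_of_pos (by positivity),
    mul_inv_cancel₀ (by positivity), ENNReal.ofReal_one, one_mul]

end Pool.Agent.TH277.CP
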