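import Mathlib
import Pool.Agent.TH277.CP.B
import Pool.Agent.TH277.CP.P
set_option autoImplicit false

/-! The extension operator on superpositions of rough convex phases. -/

namespace Pool.Agent.TH277.CP

open MeasureTheory Set Complex
open scoped ENNReal NNReal

lemma sq_cont : Continuous sq := by unfold sq; fun_prop

lemma disc_meas : MeasurableSet disc := measurableSet_le sq_cont.measurable measurable_const

lemma disc_sub : disc ⊆ Icc (-(1 / 2), -(1 / 2)) ((1 / 2 : ℝ), (1 / 2 : ℝ)) := by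
  intro x hx
  obtain ⟨h1, h2⟩ := disc_abs hx
  rw [abs_le] at h1 h2
  exact ⟨⟨h1.1, h2.1⟩, ⟨h1.2, h2.2⟩⟩

lemma disc_vol : volume disc ≤ 1 := by
  refine (measure_mono disc_sub).trans ?_
  rw [← Icc_prod_Icc, Measure.volume_eq_prod, Measure.prod_prod, Real.volume_Icc]
  norm_num

/-- The decay estimate, for convex and for concave phases. -/
lemma decay_sign {K : Set (ℝ × ℝ)} {Ψ : ℝ × ℝ → ℝ} {σ τ : ℝ} (hσ : σ = 1 ∨ σ = -1) (hτ : 1 ≤ τ)
    (hKd : K ⊆ disc) (hk : ConvexOn ℝ K (fun x => σ * Ψ x - τ * sq x))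
    (hm : Measurable (K.indicator fun x => cexp (I * Ψ x))) :
    ‖∫ x, K.indicator (fun x => cexp (I * Ψ x)) x‖ ≤ 32 * (1 + Real.log τ) / τ := by
  rcases hσ with rfl | rfl
  · simp only [one_mul] at hk
    exact decay2 hτ hKd hk hm
  · have h1 : (K.indicator fun x => cexp (I * ((-Ψ x : ℝ) : ℂ))) =
        fun x => (starRingEnd ℂ) (K.indicator (fun x => cexp (I * Ψ x)) x) := by
      ext x
      by_cases hx : x ∈ K
      · rw [indicator_of_mem hx, indicator_of_mem hx, ← Complex.exp_conj]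
        congr 1
        simp
      · rw [indicator_of_notMem hx, indicator_of_notMem hx, map_zero]
    have h2 : Measurable (K.indicator fun x => cexp (I * ((-Ψ x : ℝ) : ℂ))) := by
      rw [h1]
      exact Complex.continuous_conj.measurable.comp hm
    have hk' : ConvexOn ℝ K (fun x => -Ψ x - τ * sq x) := by
      simpa only [neg_mul, one_mul] using hk
    have h3 := decay2 hτ hKd hk' h2
    rw [h1, integral_conj, RCLike.norm_conj] at h3
    exact h3

/-- `f` is an atom: a convex phase on a convex set. -/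
def IsAtom (U : Set (ℝ × ℝ)) (σ T : ℝ) (f : ℝ × ℝ → ℂ) : Prop :=
  ∃ (K : Set (ℝ × ℝ)) (φ : ℝ × ℝ → ℝ) (c : ℂ), K ⊆ U ∧ ‖c‖ ≤ 1 ∧
    ConvexOn ℝ K (fun x => σ * φ x + T * (x.1 ^ 2 + x.2 ^ 2)) ∧
    f = K.indicator fun x => c * cexp (I * φ x)

/-- The phase of the extension operator. -/
noncomputable def ph (ξ : (ℝ × ℝ) × ℝ) (x : ℝ × ℝ) : ℂ :=
  cexp (-(I * ((x.1 * ξ.1.1 + x.2 * ξ.1.2 + (x.1 ^ 2 + x.2 ^ 2) * ξ.2 : ℝ) : ℂ)))

lemma ph_norm (ξ : (ℝ × ℝ) × ℝ) (x : ℝ × ℝ) : ‖ph ξ x‖ = 1 := by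
  unfold ph
  rw [← mul_neg, mul_comm, ← ofReal_neg]
  exact norm_exp_ofReal_mul_I _

lemma ph_cont (ξ : (ℝ × ℝ) × ℝ) : Continuous (ph ξ) := by
  unfold ph
  fun_prop

lemma atom_norm {U : Set (ℝ × ℝ)} {σ T : ℝ} {f : ℝ × ℝ → ℂ} (h : IsAtom U σ T f) (x : ℝ × ℝ) :
    ‖f x‖ ≤ 1 := by
  obtain ⟨K, φ, c, hKU, hc, -, rfl⟩ := h
  by_cases hx : x ∈ K
  · rw [indicator_of_mem hx, norm_mul, mul_comm I, norm_exp_ofReal_mul_I, mul_one]
    exact hc
  · rw [indicator_of_notMem hx, norm_zero]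
    exact zero_le_one

lemma atom_supp {U : Set (ℝ × ℝ)} {σ T : ℝ} {f : ℝ × ℝ → ℂ} (h : IsAtom U σ T f) {x : ℝ × ℝ}
    (hx : x ∉ U) : f x = 0 := by
  obtain ⟨K, φ, c, hKU, hc, -, rfl⟩ := h
  exact indicator_of_notMem (fun h => hx (hKU h)) _

/-- The trivial bound for an atom. -/
lemma atom_triv {U : Set (ℝ × ℝ)} {σ T : ℝ} {f : ℝ × ℝ → ℂ} (hU : U ⊆ disc)
    (h : IsAtom U σ T f) (ξ : (ℝ × ℝ) × ℝ) : ‖∫ x, ph ξ x * f x‖ ≤ 1 := by
  have h1 : ∫ x, ph ξ x * f x = ∫ x in disc, ph ξ x * f x := by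
    symm
    apply setIntegral_eq_integral_of_forall_compl_eq_zero
    intro x hx
    rw [atom_supp h (fun h => hx (hU h)), mul_zero]
  rw [h1]
  calc ‖∫ x in disc, ph ξ x * f x‖ ≤ 1 * (volume disc).toReal := by
        apply norm_setIntegral_le_of_norm_le_const (disc_vol.trans_lt ENNReal.one_lt_top)
        intro x _
        rw [norm_mul, ph_norm, one_mul]
        exact atom_norm h x
    _ ≤ 1 * 1 := by
        gcongr
        exact ENNReal.toReal_mono ENNReal.one_ne_top disc_vol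
    _ = 1 := one_mul 1

/-- The decay bound for an atom. -/
lemma atom_decay {U : Set (ℝ × ℝ)} {σ T : ℝ} {f : ℝ × ℝ → ℂ} (hU : U ⊆ disc)
    (hσ : σ = 1 ∨ σ = -1) (h : IsAtom U σ T f) (hm : Measurable f) (ξ : (ℝ × ℝ) × ℝ)
    (hξ : 1 ≤ -σ * ξ.2 - T) :
    ‖∫ x, ph ξ x * f x‖ ≤ 32 * (1 + Real.log (-σ * ξ.2 - T)) / (-σ * ξ.2 - T) := by
  obtain ⟨K, φ, c, hKU, hc, hconv, rfl⟩ := h
  set τ : ℝ := -σ * ξ.2 - T with hτ
  have hlog : 0 ≤ Real.log τ := Real.log_nonneg hξ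
  have hτ0 : 0 < τ := by linarith
  rcases eq_or_ne c 0 with rfl | hc0
  · have h1 : ∀ x, ph ξ x * K.indicator (fun x => 0 * cexp (I * φ x)) x = 0 := by
      intro x
      rw [show (fun x => (0 : ℂ) * cexp (I * φ x)) = fun _ => 0 by ext x; rw [zero_mul]]
      simp
    simp only [h1, integral_zero, norm_zero]
    positivity
  set Ψ : ℝ × ℝ → ℝ := fun x =>
    φ x - (x.1 * ξ.1.1 + x.2 * ξ.1.2 + (x.1 ^ 2 + x.2 ^ 2) * ξ.2) with hΨ
  have h2 : ∀ x, ph ξ x * K.indicator (fun x => c * cexp (I * φ x)) x =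
      c * K.indicator (fun x => cexp (I * Ψ x)) x := by
    intro x
    by_cases hx : x ∈ K
    · rw [indicator_of_mem hx, indicator_of_mem hx, mul_left_comm]
      congr 1
      unfold ph
      rw [← Complex.exp_add]
      congr 1
      simp only [hΨ]
      push_cast
      ring
    · rw [indicator_of_notMem hx, indicator_of_notMem hx, mul_zero, mul_zero]
  have hmΨ : Measurable (K.indicator fun x => cexp (I * Ψ x)) := by
    have h3 : (K.indicator fun x => cexp (I * Ψ x)) =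
        fun x => c⁻¹ * (ph ξ x * K.indicator (fun x => c * cexp (I * φ x)) x) := by
      ext x
      rw [h2 x, ← mul_assoc, inv_mul_cancel₀ hc0, one_mul]
    rw [h3]
    exact ((ph_cont ξ).measurable.mul hm).const_mul _
  have hσ2 : σ * σ = 1 := by
    rcases hσ with rfl | rfl <;> norm_num
  have hconv' : ConvexOn ℝ K (fun x => σ * Ψ x - τ * sq x) := by
    refine ⟨hconv.1, ?_⟩
    intro x hx y hy a b ha hb hab
    have h4 := hconv.2 hx hy ha hb hab
    have hb' : b = 1 - a := by linarith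
    subst hb'
    simp only [hΨ, hτ, sq, smul_eq_mul, Prod.fst_add, Prod.snd_add, Prod.smul_fst,
      Prod.smul_snd] at h4 ⊢
    nlinarith [h4]
  have h5 := decay_sign hσ hξ (hKU.trans hU) hconv' hmΨ
  simp only [h2]
  rw [integral_const_mul, norm_mul]
  calc ‖c‖ * ‖∫ x, K.indicator (fun x => cexp (I * Ψ x)) x‖ ≤
        1 * (32 * (1 + Real.log τ) / τ) := mul_le_mul hc h5 (norm_nonneg _) zero_le_one
    _ = 32 * (1 + Real.log τ) / τ := one_mul _

end Pool.Agent.TH277.CP
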