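import Mathlib
import Pool.Agent.TH277.CP.C
set_option autoImplicit false

/-! The restriction estimate for superpositions of rough convex phases. -/

namespace Pool.Agent.TH277.CP

open MeasureTheory Set Complex
open scoped ENNReal NNReal

variable {S : Type} [MeasurableSpace S]

/-- The superposition `f(x) = ∫ g_s(x) dν(s)`. -/
noncomputable def sup (ν : Measure S) (g : S → ℝ × ℝ → ℂ) (x : ℝ × ℝ) : ℂ := ∫ s, g s x ∂ν

lemma sup_supp {U : Set (ℝ × ℝ)} {σ T : ℝ} (ν : Measure S) {g : S → ℝ × ℝ → ℂ}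
    (ha : ∀ s, IsAtom U σ T (g s)) {x : ℝ × ℝ} (hx : x ∉ U) : sup ν g x = 0 := by
  unfold sup
  simp only [atom_supp (ha _) hx, integral_zero]

lemma sup_norm {U : Set (ℝ × ℝ)} {σ T : ℝ} (ν : Measure S) [IsFiniteMeasure ν]
    {g : S → ℝ × ℝ → ℂ} (ha : ∀ s, IsAtom U σ T (g s)) (x : ℝ × ℝ) :
    ‖sup ν g x‖ ≤ ν.real univ := by
  unfold sup
  calc ‖∫ s, g s x ∂ν‖ ≤ 1 * ν.real univ :=
        norm_integral_le_of_norm_le_const (ae_of_all _ fun s => atom_norm (ha s) x)
    _ = ν.real univ := one_mul _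

lemma sup_meas (ν : Measure S) [IsFiniteMeasure ν] {g : S → ℝ × ℝ → ℂ}
    (hm : Measurable (Function.uncurry g)) : StronglyMeasurable (sup ν g) := by
  unfold sup
  have h1 : StronglyMeasurable (Function.uncurry fun (x : ℝ × ℝ) (s : S) => g s x) :=
    (hm.comp measurable_swap).stronglyMeasurable
  exact h1.integral_prod_right

lemma ext_swap {U : Set (ℝ × ℝ)} {σ T : ℝ} (hU : U ⊆ disc) (ν : Measure S) [IsFiniteMeasure ν]
    {g : S → ℝ × ℝ → ℂ} (hm : Measurable (Function.uncurry g)) (ha : ∀ s, IsAtom U σ T (g s))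
    (ξ : (ℝ × ℝ) × ℝ) :
    ∫ x, ph ξ x * sup ν g x = ∫ s, (∫ x, ph ξ x * g s x) ∂ν := by
  have h1 : ∀ s, ∫ x, ph ξ x * g s x = ∫ x in disc, ph ξ x * g s x := by
    intro s
    symm
    apply setIntegral_eq_integral_of_forall_compl_eq_zero
    intro x hx
    rw [atom_supp (ha s) (fun h => hx (hU h)), mul_zero]
  have h2 : ∫ x, ph ξ x * sup ν g x = ∫ x in disc, ph ξ x * sup ν g x := by
    symm
    apply setIntegral_eq_integral_of_forall_compl_eq_zero
    intro x hx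
    rw [sup_supp ν ha (fun h => hx (hU h)), mul_zero]
  simp only [h1]
  rw [h2]
  have h3 : ∀ x, ph ξ x * sup ν g x = ∫ s, ph ξ x * g s x ∂ν := by
    intro x
    unfold sup
    rw [integral_const_mul]
  simp only [h3]
  apply integral_integral_swap
  have hfin : IsFiniteMeasure ((volume : Measure (ℝ × ℝ)).restrict disc) :=
    ⟨by rw [Measure.restrict_apply_univ]; exact disc_vol.trans_lt ENNReal.one_lt_top⟩
  refine Integrable.of_bound (C := 1) ?_ ?_
  · apply Measurable.aestronglyMeasurable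
    exact ((ph_cont ξ).measurable.comp measurable_fst).mul (hm.comp measurable_swap)
  · refine ae_of_all _ fun p => ?_
    simp only [Function.uncurry]
    rw [norm_mul, ph_norm, one_mul]
    exact atom_norm (ha _) _

/-- The pointwise bound: `|Ef| ≤ C ν(S) max(1,τ)^(-(1-ε))`. -/
lemma sup_decay {U : Set (ℝ × ℝ)} {σ T ε : ℝ} (hε : 0 < ε) (hU : U ⊆ disc)
    (hσ : σ = 1 ∨ σ = -1) (ν : Measure S) [IsFiniteMeasure ν]
    {g : S → ℝ × ℝ → ℂ} (hm : Measurable (Function.uncurry g)) (ha : ∀ s, IsAtom U σ T (g s))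
    (ξ : (ℝ × ℝ) × ℝ) :
    ‖∫ x, ph ξ x * sup ν g x‖ ≤
      ν.real univ * (32 * (1 + 1 / ε) * (max 1 (-σ * ξ.2 - T)) ^ (-(1 - ε))) := by
  rw [ext_swap hU ν hm ha ξ]
  have key : ∀ s, ‖∫ x, ph ξ x * g s x‖ ≤
      32 * (1 + 1 / ε) * (max 1 (-σ * ξ.2 - T)) ^ (-(1 - ε)) := by
    intro s
    rcases le_or_gt 1 (-σ * ξ.2 - T) with h | h
    · have hms : Measurable (g s) := hm.comp measurable_prodMk_left
      have h1 := atom_decay hU hσ (ha s) hms ξ h
      refine h1.trans ?_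
      rw [max_eq_right h]
      set τ : ℝ := -σ * ξ.2 - T with hτ
      have hτ0 : 0 < τ := by linarith
      have h2 : Real.log τ ≤ τ ^ ε / ε := Real.log_le_rpow_div hτ0.le hε
      have h3 : 1 ≤ τ ^ ε := Real.one_le_rpow h hε.le
      have h4 : τ ^ (-(1 - ε)) = τ ^ ε / τ := by
        rw [show -(1 - ε) = ε - 1 by ring, Real.rpow_sub hτ0, Real.rpow_one]
      rw [h4]
      rw [div_le_iff₀ hτ0]
      have h5 : 32 * (1 + 1 / ε) * (τ ^ ε / τ) * τ = 32 * (τ ^ ε + τ ^ ε / ε) := by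
        field_simp
      rw [h5]
      linarith
    · rw [max_eq_left h.le, Real.one_rpow, mul_one]
      refine (atom_triv hU (ha s) ξ).trans ?_
      have : 0 < 1 / ε := by positivity
      linarith
  calc ‖∫ s, (∫ x, ph ξ x * g s x) ∂ν‖ ≤
        (32 * (1 + 1 / ε) * (max 1 (-σ * ξ.2 - T)) ^ (-(1 - ε))) * ν.real univ :=
        norm_integral_le_of_norm_le_const (ae_of_all _ key)
    _ = _ := mul_comm _ _

/-- Plancherel in the first two variables. -/
lemma sup_planch {U : Set (ℝ × ℝ)} {σ T : ℝ} (hU : U ⊆ disc) (ν : Measure S) [IsFiniteMeasure ν]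
    {g : S → ℝ × ℝ → ℂ} (hm : Measurable (Function.uncurry g)) (ha : ∀ s, IsAtom U σ T (g s))
    (t : ℝ) :
    ∫⁻ X : ℝ × ℝ, ‖∫ x, ph (X, t) x * sup ν g x‖ₑ ^ 2 =
      ENNReal.ofReal ((2 * Real.pi) ^ 2) * ∫⁻ x, ‖sup ν g x‖ₑ ^ 2 := by
  set F : ℝ × ℝ → ℂ := fun x =>
    cexp (-(I * (((x.1 ^ 2 + x.2 ^ 2) * t : ℝ) : ℂ))) * sup ν g x with hF
  have hcm : Continuous fun x : ℝ × ℝ => cexp (-(I * (((x.1 ^ 2 + x.2 ^ 2) * t : ℝ) : ℂ))) := by
    fun_prop
  have hFm : AEStronglyMeasurable F :=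
    hcm.aestronglyMeasurable.mul (sup_meas ν hm).aestronglyMeasurable
  have hFn : ∀ x, ‖F x‖ = ‖sup ν g x‖ := by
    intro x
    simp only [hF]
    rw [norm_mul, ← mul_neg, mul_comm I, ← ofReal_neg, norm_exp_ofReal_mul_I, one_mul]
  have hFs : ∀ x, x ∉ disc → F x = 0 := by
    intro x hx
    simp only [hF]
    rw [sup_supp ν ha (fun h => hx (hU h)), mul_zero]
  have hdf : volume disc < ⊤ := disc_vol.trans_lt ENNReal.one_lt_top
  have hfin : IsFiniteMeasure ((volume : Measure (ℝ × ℝ)).restrict disc) :=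
    ⟨by rw [Measure.restrict_apply_univ]; exact hdf⟩
  have hFi : F = disc.indicator F := by
    ext x
    by_cases hx : x ∈ disc
    · rw [indicator_of_mem hx]
    · rw [indicator_of_notMem hx, hFs x hx]
  have hbd : ∀ x, ‖F x‖ ≤ ν.real univ := fun x => (hFn x).le.trans (sup_norm ν ha x)
  have h1 : Integrable F := by
    rw [hFi, integrable_indicator_iff disc_meas]
    exact IntegrableOn.of_bound hdf hFm.restrict _ (ae_of_all _ hbd)
  have h2 : MemLp F 2 := by
    rw [hFi, memLp_indicator_iff_restrict disc_meas]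
    exact MemLp.of_bound hFm.restrict _ (ae_of_all _ hbd)
  have h3 := plancherel2 F h1 h2
  have h4 : ∀ x, ‖F x‖ₑ = ‖sup ν g x‖ₑ := by
    intro x
    rw [← ofReal_norm, hFn x, ofReal_norm]
  simp only [h4] at h3
  rw [← h3]
  apply lintegral_congr
  intro X
  congr 2
  apply integral_congr_ae
  refine ae_of_all _ fun x => ?_
  simp only [hF]
  rw [← mul_assoc]
  congr 1
  unfold ph
  rw [← Complex.exp_add]
  congr 1
  push_cast
  ring

end Pool.Agent.TH277.CP
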