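import Mathlib
import Pool.Agent.TH277.CP.D
set_option autoImplicit false

/-! The restriction estimate for superpositions of rough convex phases: the main estimate. -/

namespace Pool.Agent.TH277.CP

open MeasureTheory Set Complex
open scoped ENNReal NNReal

variable {S : Type} [MeasurableSpace S]

/-- The time integral of the decay function. -/
noncomputable def tint (q : ℝ) : ℝ≥0∞ :=
  ∫⁻ τ in Ioi (0 : ℝ), ENNReal.ofReal ((max 1 τ) ^ (-((q - 1) / 2)))

lemma tint_lt (q : ℝ) (hq : 3 < q) : tint q < ⊤ := by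
  unfold tint
  have h1 : Ioi (0 : ℝ) = Ioc 0 1 ∪ Ioi 1 := (Ioc_union_Ioi_eq_Ioi zero_le_one).symm
  rw [h1]
  refine (lintegral_union_le _ _ _).trans_lt ?_
  apply ENNReal.add_lt_top.2
  constructor
  · calc ∫⁻ τ in Ioc (0 : ℝ) 1, ENNReal.ofReal ((max 1 τ) ^ (-((q - 1) / 2)))
        ≤ ∫⁻ τ in Ioc (0 : ℝ) 1, 1 := by
          apply setLIntegral_mono measurable_const
          intro τ hτ
          rw [max_eq_left hτ.2, Real.one_rpow, ENNReal.ofReal_one]
      _ < ⊤ := by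
          rw [setLIntegral_const, Real.volume_Ioc]
          simp
  · have h2 : IntegrableOn (fun τ : ℝ => τ ^ (-((q - 1) / 2))) (Ioi 1) :=
      integrableOn_Ioi_rpow_of_lt (by linarith) zero_lt_one
    have h3 : ∫⁻ τ in Ioi (1 : ℝ), ENNReal.ofReal ((max 1 τ) ^ (-((q - 1) / 2))) =
        ∫⁻ τ in Ioi (1 : ℝ), ENNReal.ofReal (τ ^ (-((q - 1) / 2))) := by
      apply setLIntegral_congr_fun measurableSet_Ioi
      intro τ hτ
      simp only
      rw [max_eq_right (le_of_lt hτ)]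
    rw [h3]
    exact h2.lintegral_lt_top

/-- The final constant. -/
noncomputable def cst (q : ℝ) : ℝ≥0∞ :=
  ENNReal.ofReal (32 * (1 + 1 / ((q - 3) / (2 * (q - 2))))) ^ (q - 2) *
    ENNReal.ofReal ((2 * Real.pi) ^ 2) * tint q

lemma cst_lt (q : ℝ) (hq : 3 < q) : cst q < ⊤ := by
  unfold cst
  apply ENNReal.mul_lt_top (ENNReal.mul_lt_top _ ENNReal.ofReal_lt_top) (tint_lt q hq)
  exact ENNReal.rpow_lt_top_of_nonneg (by linarith) ENNReal.ofReal_ne_top

lemma E_meas (f : ℝ × ℝ → ℂ) (hf : StronglyMeasurable f) :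
    Measurable fun ξ : (ℝ × ℝ) × ℝ => ‖∫ x, ph ξ x * f x‖ₑ := by
  have h1 : Continuous fun p : ((ℝ × ℝ) × ℝ) × (ℝ × ℝ) => ph p.1 p.2 := by
    unfold ph
    fun_prop
  have h2 : StronglyMeasurable
      (Function.uncurry fun (ξ : (ℝ × ℝ) × ℝ) (x : ℝ × ℝ) => ph ξ x * f x) := by
    apply StronglyMeasurable.mul
    · exact h1.stronglyMeasurable
    · exact hf.comp_measurable measurable_snd
  exact h2.integral_prod_right.measurable.enorm

/-- A linear change of variables of the time. -/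
lemma time_change {σ : ℝ} (hσ : σ = 1 ∨ σ = -1) (T : ℝ) (F : ℝ → ℝ≥0∞) (hF : Measurable F) :
    ∫⁻ t in {t : ℝ | σ * t < -T}, F (-σ * t - T) = ∫⁻ τ in Ioi (0 : ℝ), F τ := by
  have h1 : MeasurableSet {t : ℝ | σ * t < -T} :=
    measurableSet_lt (measurable_const.mul measurable_id) measurable_const
  rw [← lintegral_indicator h1, ← lintegral_indicator measurableSet_Ioi]
  have h2 : ∀ t, ({t : ℝ | σ * t < -T}).indicator (fun t => F (-σ * t - T)) t =
      (Ioi (0 : ℝ)).indicator F (-σ * t - T) := by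
    intro t
    by_cases h : σ * t < -T
    · rw [indicator_of_mem (show t ∈ {t : ℝ | σ * t < -T} from h), indicator_of_mem]
      show 0 < -σ * t - T
      linarith
    · rw [indicator_of_notMem (show t ∉ {t : ℝ | σ * t < -T} from h), indicator_of_notMem]
      intro h3
      have h4 : 0 < -σ * t - T := h3
      exact h (by linarith)
  simp only [h2]
  have h3 : ∀ G : ℝ → ℝ≥0∞, ∫⁻ t, G (-σ * t - T) = ∫⁻ t, G t := by
    intro G
    rcases hσ with rfl | rfl
    · calc ∫⁻ t, G (-1 * t - T) = ∫⁻ t, G (-(t + T)) := by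
            apply lintegral_congr
            intro t
            congr 1
            ring
        _ = ∫⁻ t, G (-t) := lintegral_add_right_eq_self (fun t => G (-t)) T
        _ = ∫⁻ t, G t := lintegral_neg_eq_self G
    · calc ∫⁻ t, G (- -1 * t - T) = ∫⁻ t, G (t + -T) := by
            apply lintegral_congr
            intro t
            congr 1
            ring
        _ = ∫⁻ t, G t := lintegral_add_right_eq_self G (-T)
  exact h3 _

theorem main (q : ℝ) (hq : 3 < q) {U : Set (ℝ × ℝ)} (hU : U ⊆ disc) {σ T : ℝ}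
    (hσ : σ = 1 ∨ σ = -1) (ν : Measure S) [IsFiniteMeasure ν] {g : S → ℝ × ℝ → ℂ}
    (hm : Measurable (Function.uncurry g)) (ha : ∀ s, IsAtom U σ T (g s)) :
    ∫⁻ ξ in {ξ : (ℝ × ℝ) × ℝ | σ * ξ.2 < -T}, ‖∫ x, ph ξ x * sup ν g x‖ₑ ^ q ≤
      cst q * ν univ ^ (q - 2) * ∫⁻ x, ‖sup ν g x‖ₑ ^ (2 : ℝ) := by
  set ε : ℝ := (q - 3) / (2 * (q - 2)) with hε
  have hε0 : 0 < ε := div_pos (by linarith) (by linarith)
  have hq2 : 0 < q - 2 := by linarith
  have hexp : -(1 - ε) * (q - 2) = -((q - 1) / 2) := by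
    rw [hε]
    field_simp
    ring
  set Φ : (ℝ × ℝ) × ℝ → ℝ≥0∞ := fun ξ => ‖∫ x, ph ξ x * sup ν g x‖ₑ with hΦ
  have hΦm : Measurable Φ := E_meas _ (sup_meas ν hm)
  set A : Set ℝ := {t : ℝ | σ * t < -T} with hA
  have hAm : MeasurableSet A := measurableSet_lt (measurable_const.mul measurable_id) measurable_const
  have hset : {ξ : (ℝ × ℝ) × ℝ | σ * ξ.2 < -T} = univ ×ˢ A := by
    ext ξ
    simp [hA]
  rw [hset, Measure.volume_eq_prod, ← Measure.prod_restrict, Measure.restrict_univ,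
    lintegral_prod_symm _ (hΦm.pow_const q).aemeasurable]
  set L : ℝ≥0∞ := ∫⁻ x, ‖sup ν g x‖ₑ ^ (2 : ℝ) with hL
  have hL2 : ∫⁻ x, ‖sup ν g x‖ₑ ^ 2 = L := by
    rw [hL]
    apply lintegral_congr
    intro x
    rw [← ENNReal.rpow_natCast]
    norm_num
  -- the bound for a fixed time
  have hfix : ∀ t : ℝ, ∫⁻ X : ℝ × ℝ, Φ (X, t) ^ q ≤
      (ν univ ^ (q - 2) * ENNReal.ofReal (32 * (1 + 1 / ε)) ^ (q - 2) *
        ENNReal.ofReal ((max 1 (-σ * t - T)) ^ (-((q - 1) / 2)))) *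
        (ENNReal.ofReal ((2 * Real.pi) ^ 2) * L) := by
    intro t
    set m : ℝ := max 1 (-σ * t - T) with hmdef
    have hm1 : 1 ≤ m := le_max_left _ _
    have hm0 : 0 < m := by linarith
    set B : ℝ≥0∞ := ν univ * (ENNReal.ofReal (32 * (1 + 1 / ε)) * ENNReal.ofReal (m ^ (-(1 - ε))))
      with hB
    have hle : ∀ X : ℝ × ℝ, Φ (X, t) ≤ B := by
      intro X
      have h1 := sup_decay hε0 hU hσ ν hm ha (X, t)
      simp only at h1
      rw [← hmdef] at h1
      simp only [hΦ]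
      rw [← ofReal_norm]
      refine (ENNReal.ofReal_le_ofReal h1).trans (le_of_eq ?_)
      rw [hB, ENNReal.ofReal_mul measureReal_nonneg, ENNReal.ofReal_mul (by positivity),
        Measure.real, ENNReal.ofReal_toReal (measure_ne_top ν univ)]
    have hpt : ∀ X : ℝ × ℝ, Φ (X, t) ^ q ≤ B ^ (q - 2) * Φ (X, t) ^ 2 := by
      intro X
      have h1 : Φ (X, t) ^ q = Φ (X, t) ^ (q - 2) * Φ (X, t) ^ 2 := by
        have h2 : Φ (X, t) ^ 2 = Φ (X, t) ^ (2 : ℝ) := by
          rw [← ENNReal.rpow_natCast]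
          norm_num
        rw [h2, ← ENNReal.rpow_add_of_nonneg _ _ hq2.le (by norm_num)]
        congr 1
        ring
      rw [h1]
      gcongr
      exact hle X
    have hsm : Measurable fun X : ℝ × ℝ => Φ (X, t) ^ 2 :=
      (hΦm.comp measurable_prodMk_right).pow_const 2
    calc ∫⁻ X : ℝ × ℝ, Φ (X, t) ^ q ≤ ∫⁻ X : ℝ × ℝ, B ^ (q - 2) * Φ (X, t) ^ 2 :=
          lintegral_mono hpt
      _ = B ^ (q - 2) * ∫⁻ X : ℝ × ℝ, Φ (X, t) ^ 2 := lintegral_const_mul _ hsm
      _ = B ^ (q - 2) * (ENNReal.ofReal ((2 * Real.pi) ^ 2) * L) := by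
          simp only [hΦ]
          rw [sup_planch hU ν hm ha t, hL2]
      _ = _ := by
          congr 1
          rw [hB, ENNReal.mul_rpow_of_nonneg _ _ hq2.le, ENNReal.mul_rpow_of_nonneg _ _ hq2.le,
            ← mul_assoc]
          congr 1
          rw [ENNReal.ofReal_rpow_of_nonneg (by positivity) hq2.le, ← Real.rpow_mul hm0.le, hexp]
  have hmf : Measurable fun τ : ℝ => ENNReal.ofReal ((max 1 τ) ^ (-((q - 1) / 2))) := by
    fun_prop
  calc ∫⁻ t in A, ∫⁻ X : ℝ × ℝ, Φ (X, t) ^ q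
      ≤ ∫⁻ t in A, (ν univ ^ (q - 2) * ENNReal.ofReal (32 * (1 + 1 / ε)) ^ (q - 2) *
        ENNReal.ofReal ((max 1 (-σ * t - T)) ^ (-((q - 1) / 2)))) *
        (ENNReal.ofReal ((2 * Real.pi) ^ 2) * L) := lintegral_mono fun t => hfix t
    _ = (ν univ ^ (q - 2) * ENNReal.ofReal (32 * (1 + 1 / ε)) ^ (q - 2) * tint q) *
        (ENNReal.ofReal ((2 * Real.pi) ^ 2) * L) := by
        rw [lintegral_mul_const _ (by fun_prop), lintegral_const_mul _ (by fun_prop)]
        congr 2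
        unfold tint
        exact time_change hσ T _ hmf
    _ = cst q * ν univ ^ (q - 2) * L := by
        unfold cst
        rw [← hε]
        ring

end Pool.Agent.TH277.CP
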